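import Pool.Agent.Helper29.H2.St3

/-!
# Project H2, module D2: digits after a shift and a mask
-/

set_option autoImplicit false

namespace Pool.Agent.Helper29.H2

open Finset MeasureTheory
open Pool.Agent.Helper27.BG

private lemma geo_D2 (b n : ℕ) (hb : 0 < b) :
    (2 ^ (b * (n + 1)) - 1) / (2 ^ b - 1) = 2 ^ (b * n) + (2 ^ (b * n) - 1) / (2 ^ b - 1) := by
  have h2 : 2 ≤ 2 ^ b := by
    calc 2 = 2 ^ 1 := rfl
      _ ≤ 2 ^ b := Nat.pow_le_pow_right (by norm_num) hb
  have h1 : 1 ≤ 2 ^ (b * n) := Nat.one_le_two_pow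
  have h3 : 2 ^ (b * (n + 1)) - 1 = 2 ^ (b * n) * (2 ^ b - 1) + (2 ^ (b * n) - 1) := by
    rw [Nat.mul_succ, pow_add, Nat.mul_sub, mul_one]
    have h4 : 2 ^ (b * n) ≤ 2 ^ (b * n) * 2 ^ b := Nat.le_mul_of_pos_right _ (by omega)
    omega
  rw [h3, mul_comm (2 ^ (b * n)) (2 ^ b - 1), Nat.mul_add_div (by omega)]

private lemma lt_D2 (b n k : ℕ) (hk : k ≤ b) : dmk b n k < 2 ^ (b * n) := by
  have h1 : 1 ≤ 2 ^ (b * n) := Nat.one_le_two_pow
  have h2 : 2 ^ k ≤ 2 ^ b := Nat.pow_le_pow_right (by norm_num) hk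
  have h3 : dmk b n k ≤ 2 ^ (b * n) - 1 := by
    unfold dmk
    calc (2 ^ (b * n) - 1) / (2 ^ b - 1) * (2 ^ k - 1)
        ≤ (2 ^ (b * n) - 1) / (2 ^ b - 1) * (2 ^ b - 1) := Nat.mul_le_mul_left _ (by omega)
      _ ≤ 2 ^ (b * n) - 1 := Nat.div_mul_le_self _ _
  omega

private lemma bit_D2 (b n k : ℕ) (hb : 0 < b) (hk : k ≤ b) (j : ℕ) :
    (dmk b n k).testBit j = decide (j < b * n ∧ j % b < k) := by
  induction n with
  | zero => simp [dmk]
  | succ n ih =>
    have h1 : dmk b (n + 1) k = 2 ^ (b * n) * (2 ^ k - 1) + dmk b n k := by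
      unfold dmk
      rw [geo_D2 b n hb, add_mul]
    rw [h1, Nat.testBit_two_pow_mul_add _ (lt_D2 b n k hk)]
    have h2 : b * (n + 1) = b * n + b := Nat.mul_succ b n
    by_cases hj : j < b * n
    · rw [if_pos hj, ih]
      have h3 : j < b * (n + 1) := by omega
      simp [hj, h3]
    · rw [if_neg hj, Nat.testBit_two_pow_sub_one]
      push Not at hj
      obtain ⟨i, rfl⟩ := Nat.exists_eq_add_of_le hj
      rw [Nat.add_sub_cancel_left, Nat.mul_add_mod]
      by_cases hi : i < b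
      · have h3 : b * n + i < b * (n + 1) := by omega
        rw [Nat.mod_eq_of_lt hi]
        simp [h3]
      · have h3 : ¬ (b * n + i < b * (n + 1)) := by omega
        have h4 : ¬ (i < k) := by omega
        simp [h3, h4]

private lemma bitW_D2 (b n s k Z : ℕ) (hb : 0 < b) (hk : k ≤ b) (j : ℕ) :
    (Nat.land (Nat.shiftRight Z s) (dmk b n k)).testBit j =
      (Z.testBit (s + j) && decide (j < b * n ∧ j % b < k)) := by
  change ((Z >>> s) &&& (dmk b n k)).testBit j = _
  rw [Nat.testBit_and, Nat.testBit_shiftRight, bit_D2 b n k hb hk]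

/-- D2: shift and mask. -/
theorem hD2 : StD2 := by
  intro b n s k Z hb hsk
  have hk : k ≤ b := by omega
  have hlt : Nat.land (Nat.shiftRight Z s) (dmk b n k) < 2 ^ (b * n) :=
    Nat.and_lt_two_pow _ (lt_D2 b n k hk)
  refine ⟨hlt, ?_, ?_⟩
  · intro S hS
    apply Nat.eq_of_testBit_eq
    intro j
    unfold dg
    rw [Nat.testBit_mod_two_pow, Nat.testBit_div_two_pow, bitW_D2 b n s k Z hb hk,
      Nat.testBit_mod_two_pow, Nat.testBit_div_two_pow, Nat.testBit_mod_two_pow,
      Nat.testBit_div_two_pow]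
    have hbn : b * S + b ≤ b * n := by
      calc b * S + b = b * (S + 1) := (Nat.mul_succ b S).symm
        _ ≤ b * n := Nat.mul_le_mul_left b hS
    by_cases hj : j < k
    · have h1 : j < b := by omega
      have h2 : j + s < b := by omega
      have h3 : j + b * S < b * n := by omega
      have h4 : (j + b * S) % b = j := by
        rw [Nat.add_mul_mod_self_left, Nat.mod_eq_of_lt h1]
      have h5 : s + (j + b * S) = j + s + b * S := by omega
      simp [hj, h1, h2, h3, h4, h5]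
    · by_cases h1 : j < b
      · have h4 : (j + b * S) % b = j := by
          rw [Nat.add_mul_mod_self_left, Nat.mod_eq_of_lt h1]
        simp [hj, h4]
      · simp [hj, h1]
  · intro S hS
    unfold dg
    have h1 : 2 ^ (b * n) ≤ 2 ^ (b * S) :=
      Nat.pow_le_pow_right (by norm_num) (Nat.mul_le_mul_left b hS)
    rw [Nat.div_eq_of_lt (lt_of_lt_of_le hlt h1), Nat.zero_mod]

end Pool.Agent.Helper29.H2
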